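import Pool.Agent.P.MP_af0fcb_gt.CG.SE
import Pool.Agent.P.MP_af0fcb_gt.CG.LINE2
import Pool.Agent.P.MP_af0fcb_gt.CG.AXE
import Pool.Agent.P.MP_af0fcb_gt.CG.TF
import Pool.Agent.P.MP_af0fcb_gt.CG.DIAG
import Pool.Agent.P.MP_af0fcb_gt.CG.CPT
import Pool.Agent.P.MP_af0fcb_gt.CG.EXT

namespace Pool.Agent.Results.MP_af0fcb_gt.AbelianLinear

open Pool.Agent.P.MP_af0fcb_gt

/-- For `n ≥ 2`, a countable abelian group whose finite subgroups embed in `O(n)` lies in `C_n`. -/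
theorem result (n : ℕ) (hn : 2 ≤ n) (H : Type) [CommGroup H] (hc : Countable H)
    (h : ∀ K : Subgroup H, Finite K →
      ∃ φ : K →* Matrix.orthogonalGroup (Fin n) ℝ, Function.Injective φ) :
    InClass (EuclideanSpace ℝ (Fin n)) H :=
  CG.realize_abelian CG.p_LINE2 CG.p_NET2 CG.p_SUB2 CG.p_AXE CG.p_ROT CG.p_TF CG.p_DIAG CG.p_CPT
    CG.p_EXT (CG.p_GEN CG.p_TF) n hn H hc h

end Pool.Agent.Results.MP_af0fcb_gt.AbelianLinear
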