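import Pool.Agent.P.MP_af0fcb_gt.LineMain

namespace Pool.Agent.Results.MP_af0fcb_gt.LineCase

open Pool.Agent.P.MP_af0fcb_gt

/-- The class `C_1` consists of the trivial group, `ℤ/2`, `ℤ` and the infinite dihedral group. -/
theorem result (H : Type) [Group H] : InClass ℝ H ↔
    Subsingleton H ∨ Nonempty (H ≃* Multiplicative (ZMod 2)) ∨
      Nonempty (H ≃* Multiplicative ℤ) ∨ Nonempty (H ≃* DihedralGroup 0) :=
  line_main H

end Pool.Agent.Results.MP_af0fcb_gt.LineCase
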