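import Pool.Agent.P.MP_af0fcb_gt.CG.PC

namespace Pool.Agent.Results.MP_af0fcb_gt.ProductBlock

open Pool.Agent.P.MP_af0fcb_gt

/-- If `H` lies in `C_n` and `K` is a countable subgroup of `O(2)^k × O(1)^j`, then `H × K` lies
in `C_(n + 2 k + j)`. -/
theorem result (n k j : ℕ) (H K : Type) [Group H] [Group K]
    (hH : InClass (EuclideanSpace ℝ (Fin n)) H) (hc : Countable K)
    (φ : K →* (Fin k → Matrix.orthogonalGroup (Fin 2) ℝ) × (Fin j → ℤˣ))
    (hφ : Function.Injective φ) :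
    InClass (EuclideanSpace ℝ (Fin (n + (2 * k + j)))) (H × K) :=
  CG.prod_orth n k j H K hH hc φ hφ

end Pool.Agent.Results.MP_af0fcb_gt.ProductBlock
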