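import Pool.Agent.P.MP_af0fcb_gt.SW.Main

namespace Pool.Agent.Results.MP_af0fcb_gt.Sandwich

open Pool.Agent.P.MP_af0fcb_gt

/-- A countable group acting faithfully on `ℝ^m` by homeomorphisms lies in `C_n` for all
`n ≥ 2 m + 1`. -/
theorem result (H : Type) [Group H] (hc : Countable H) (m n : ℕ) (hmn : 2 * m + 1 ≤ n)
    (φ : H →* (EuclideanSpace ℝ (Fin m) ≃ₜ EuclideanSpace ℝ (Fin m)))
    (hφ : Function.Injective φ) : InClass (EuclideanSpace ℝ (Fin n)) H :=
  SW.realize' H m n hmn hc ⟨φ, hφ⟩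

end Pool.Agent.Results.MP_af0fcb_gt.Sandwich
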